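import Pool.Agent.Lib.MP_96bab1_co.Upper
import Pool.Agent.Lib.MP_96bab1_co.Lower

/-!
The exact limit, as the alphabet size tends to infinity, of the maximum rate of sequential
`k`-IPP codes of fixed length `ℓ`.
-/

namespace Pool.Agent.Results.MP_96bab1_co.LargeAlphabetLimit

open Filter Topology Pool.Agent.Lib.MP_96bab1_co

lemma isSeqIPP_empty (q ℓ k : ℕ) : IsSeqIPP k (∅ : Finset (Word q ℓ)) := by
  refine ⟨fun _ _ => ∅, ?_⟩
  intro X hX _ w U h
  have hX0 : X = ∅ := Finset.subset_empty.mp hX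
  subst hX0
  have : U = ∅ := by
    induction h with
    | start => rfl
    | round w U i x _ _ hx _ => simp at hx
  exact ⟨by rw [this], fun _ => this⟩

lemma le_maxSize {q ℓ k : ℕ} (C : Finset (Word q ℓ)) (hC : IsSeqIPP k C) :
    C.card ≤ maxSize q ℓ k := by
  apply le_csSup
  · refine ⟨Fintype.card (Word q ℓ), ?_⟩
    rintro n ⟨C', rfl, _⟩
    exact Finset.card_le_univ C'
  · exact ⟨C, rfl, hC⟩

lemma maxSize_le {q ℓ k m : ℕ} (h : ∀ C : Finset (Word q ℓ), IsSeqIPP k C → C.card ≤ m) :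
    maxSize q ℓ k ≤ m := by
  apply csSup_le
  · exact ⟨0, ∅, rfl, isSeqIPP_empty q ℓ k⟩
  · rintro n ⟨C, rfl, hC⟩
    exact h C hC

lemma logb_upper (k ℓ t : ℕ) (hk : 1 ≤ k) (hℓ : 2 * (ℓ + 1) ≤ 2 * k + t * (k * (k + 1)))
    (q : ℕ) (hq : 2 ≤ q) :
    Real.logb q (maxSize q ℓ k) ≤ t + Real.log ((k : ℝ) + k * (k + 1)) / Real.log q := by
  have h1 : maxSize q ℓ k ≤ (k + k * (k + 1)) * q ^ t := by
    apply maxSize_le
    intro C hC
    have h2 := card_le_of_isSeqIPP (by omega) hk hℓ C hC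
    have h3 : 1 ≤ q ^ t := Nat.one_le_pow _ _ (by omega)
    nlinarith [Nat.mul_le_mul_left (k * (k + 1)) h3]
  have hq1 : (1 : ℝ) < q := by exact_mod_cast (by omega : 1 < q)
  have hlq : 0 < Real.log q := Real.log_pos hq1
  have hkpos : (0 : ℝ) < k := by exact_mod_cast hk
  have hc : (0 : ℝ) < (k : ℝ) + k * (k + 1) := by positivity
  rw [Real.logb]
  rcases Nat.eq_zero_or_pos (maxSize q ℓ k) with h0 | h0
  · rw [h0]
    simp only [Nat.cast_zero, Real.log_zero, zero_div]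
    have : 1 ≤ (k : ℝ) + k * (k + 1) := by
      have : (1 : ℝ) ≤ k := by exact_mod_cast hk
      nlinarith
    have := Real.log_nonneg this
    positivity
  · have h4 : (maxSize q ℓ k : ℝ) ≤ ((k : ℝ) + k * (k + 1)) * (q : ℝ) ^ t := by
      exact_mod_cast h1
    have h5 : Real.log (maxSize q ℓ k) ≤ Real.log ((k : ℝ) + k * (k + 1)) + t * Real.log q := by
      calc Real.log (maxSize q ℓ k) ≤ Real.log (((k : ℝ) + k * (k + 1)) * (q : ℝ) ^ t) :=
            Real.log_le_log (by exact_mod_cast h0) h4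
        _ = _ := by
            rw [Real.log_mul hc.ne' (by positivity), Real.log_pow]
    rw [div_le_iff₀ hlq, add_mul, div_mul_cancel₀ _ hlq.ne']
    linarith

lemma logb_lower (k ℓ τ : ℕ) (hk : 1 ≤ k) (hℓ : τ * (k * (k + 1)) + 2 * k ≤ 2 * ℓ) (D : ℕ)
    (hD : 2 ≤ D) : ∃ c : ℝ, ∀ᶠ q : ℕ in atTop,
      ((τ : ℝ) + 1) - 2 * ((τ : ℝ) + 1) / D - c / Real.log q ≤ Real.logb q (maxSize q ℓ k) := by
  obtain ⟨c0, hc0, hcode⟩ := exists_code k τ ℓ hk hℓ
  have hc0' : (0 : ℝ) < c0 := by exact_mod_cast hc0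
  have hD0 : (0 : ℝ) < D := by exact_mod_cast (by omega : 0 < D)
  refine ⟨((τ + 1) * (D - 2)) * Real.log (2 * c0) + Real.log (D + 1), ?_⟩
  have hlim : Tendsto (fun q : ℕ => ((q : ℝ) ^ ((1 : ℝ) / D)) / c0) atTop atTop := by
    apply Tendsto.atTop_div_const hc0'
    exact (tendsto_rpow_atTop (by positivity)).comp tendsto_natCast_atTop_atTop
  filter_upwards [hlim.eventually_ge_atTop 1, eventually_ge_atTop 2] with q hq1 hq2
  set x : ℝ := ((q : ℝ) ^ ((1 : ℝ) / D)) / c0 with hx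
  set B : ℕ := ⌊x⌋₊ with hB
  have hqpos : (0 : ℝ) < q := by exact_mod_cast (by omega : 0 < q)
  have hqone : (1 : ℝ) < q := by exact_mod_cast (by omega : 1 < q)
  have hlq : 0 < Real.log q := Real.log_pos hqone
  have hB1 : 1 ≤ B := by
    rw [hB, Nat.one_le_floor_iff]
    exact hq1
  have hBx : (B : ℝ) ≤ x := Nat.floor_le (by linarith)
  have hxB : x / 2 ≤ B := by
    have h1 := Nat.lt_floor_add_one x
    have h2 : (1 : ℝ) ≤ B := by exact_mod_cast hB1
    rw [← hB] at h1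
    linarith
  have hpow : ((c0 * B) ^ D : ℕ) ≤ q := by
    have h1 : ((c0 : ℝ) * B) ≤ (q : ℝ) ^ ((1 : ℝ) / D) := by
      calc (c0 : ℝ) * B ≤ c0 * x := mul_le_mul_of_nonneg_left hBx hc0'.le
        _ = (q : ℝ) ^ ((1 : ℝ) / D) := by rw [hx]; field_simp
    have h2 : ((c0 : ℝ) * B) ^ D ≤ q := by
      calc ((c0 : ℝ) * B) ^ D ≤ ((q : ℝ) ^ ((1 : ℝ) / D)) ^ D :=
            pow_le_pow_left₀ (by positivity) h1 D
        _ = q := by
            rw [← Real.rpow_natCast, ← Real.rpow_mul hqpos.le]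
            rw [one_div_mul_cancel hD0.ne', Real.rpow_one]
    exact_mod_cast h2
  obtain ⟨C, hC, hcard⟩ := hcode D B q hB1 hpow
  have hCN := le_maxSize C hC
  set N := maxSize q ℓ k
  -- N is large
  have hBpos : (0 : ℝ) < B := by exact_mod_cast hB1
  have h3 : ((B : ℝ) ^ (τ + 1)) ^ D ≤ (N : ℝ) * ((D + 1) * ((B : ℝ) ^ (τ + 1)) ^ 2) := by
    have h4 : ((B ^ (τ + 1)) ^ D : ℕ) ≤ N * ((D + 1) * (B ^ (τ + 1)) ^ 2) := by
      calc (B ^ (τ + 1)) ^ D ≤ C.card * (D * (B ^ (τ + 1)) ^ 2 + 1) := hcard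
        _ ≤ N * ((D + 1) * (B ^ (τ + 1)) ^ 2) := by
            apply Nat.mul_le_mul hCN
            have h5 : 1 ≤ (B ^ (τ + 1)) ^ 2 := Nat.one_le_pow _ _ (Nat.one_le_pow _ _ hB1)
            nlinarith
    exact_mod_cast h4
  have hNpos : (0 : ℝ) < N := by
    by_contra hcon
    push Not at hcon
    have h4 : (0 : ℝ) < ((B : ℝ) ^ (τ + 1)) ^ D := by positivity
    have h5 : (N : ℝ) * ((D + 1) * ((B : ℝ) ^ (τ + 1)) ^ 2) ≤ 0 :=
      mul_nonpos_of_nonpos_of_nonneg hcon (by positivity)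
    linarith
  have hlogN : ((τ + 1) * (D - 2)) * Real.log B - Real.log (D + 1) ≤ Real.log N := by
    have h4 := Real.log_le_log (by positivity) h3
    rw [Real.log_pow, Real.log_pow, Real.log_mul hNpos.ne' (by positivity),
      Real.log_mul (by positivity) (by positivity), Real.log_pow, Real.log_pow] at h4
    push_cast at h4
    linarith
  have hlogB : (1 / D) * Real.log q - Real.log (2 * c0) ≤ Real.log B := by
    have h4 : Real.log (x / 2) ≤ Real.log B := Real.log_le_log (by linarith) hxB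
    have h5 : x / 2 = (q : ℝ) ^ ((1 : ℝ) / D) / (2 * c0) := by rw [hx]; field_simp
    rw [h5, Real.log_div (by positivity) (by positivity), Real.log_rpow hqpos] at h4
    exact h4
  have hD2 : (0 : ℝ) ≤ (D : ℝ) - 2 := by
    have : (2 : ℝ) ≤ D := by exact_mod_cast hD
    linarith
  have h6 : ((τ + 1) * (D - 2)) * ((1 / D) * Real.log q - Real.log (2 * c0)) -
      Real.log (D + 1) ≤ Real.log N := by
    have h7 : (((τ : ℝ) + 1) * (D - 2)) * ((1 / D) * Real.log q - Real.log (2 * c0)) ≤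
        ((τ + 1) * (D - 2)) * Real.log B :=
      mul_le_mul_of_nonneg_left hlogB (by positivity)
    linarith
  rw [Real.logb, le_div_iff₀ hlq]
  have h8 : (((τ : ℝ) + 1) - 2 * ((τ : ℝ) + 1) / D - (((τ + 1) * (D - 2)) * Real.log (2 * c0) +
      Real.log (D + 1)) / Real.log q) * Real.log q =
      ((τ + 1) * (D - 2)) * ((1 / D) * Real.log q - Real.log (2 * c0)) - Real.log (D + 1) := by
    field_simp
    ring
  rw [h8]
  exact h6

lemma tendsto_logb (k ℓ t : ℕ) (hk : 1 ≤ k)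
    (hupper : 2 * (ℓ + 1) ≤ 2 * k + t * (k * (k + 1)))
    (hlower : 1 ≤ t → (t - 1) * (k * (k + 1)) + 2 * k ≤ 2 * ℓ) :
    Tendsto (fun q : ℕ => Real.logb q (maxSize q ℓ k)) atTop (𝓝 (t : ℝ)) := by
  have hlog : Tendsto (fun q : ℕ => Real.log (q : ℝ)) atTop atTop :=
    Real.tendsto_log_atTop.comp tendsto_natCast_atTop_atTop
  rw [tendsto_order]
  constructor
  · intro a ha
    rcases Nat.eq_zero_or_pos t with ht | ht
    · subst ht
      filter_upwards [eventually_ge_atTop 2] with q hq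
      have hqone : (1 : ℝ) < q := by exact_mod_cast (by omega : 1 < q)
      have : 0 ≤ Real.logb q (maxSize q ℓ k) := by
        rw [Real.logb]
        apply div_nonneg _ (Real.log_pos hqone).le
        exact Real.log_natCast_nonneg _
      simp only [Nat.cast_zero] at ha
      linarith
    · obtain ⟨τ, rfl⟩ : ∃ τ, t = τ + 1 := ⟨t - 1, by omega⟩
      have hl := hlower ht
      simp only [Nat.add_sub_cancel] at hl
      push_cast at ha
      -- choose D
      obtain ⟨D, hD⟩ := exists_nat_gt (2 * ((τ : ℝ) + 1) / ((τ : ℝ) + 1 - a) + 2)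
      have hpos : 0 < (τ : ℝ) + 1 - a := by linarith
      have hD2' : (2 : ℝ) < D := by
        have : 0 ≤ 2 * ((τ : ℝ) + 1) / ((τ : ℝ) + 1 - a) := by positivity
        linarith
      have hD2 : 2 ≤ D := by
        have : 2 < D := by exact_mod_cast hD2'
        omega
      have hDpos : (0 : ℝ) < D := by linarith
      have hgap : a < ((τ : ℝ) + 1) - 2 * ((τ : ℝ) + 1) / D := by
        have h1 : 2 * ((τ : ℝ) + 1) / ((τ : ℝ) + 1 - a) < D := by linarith
        rw [div_lt_iff₀ hpos] at h1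
        have h2 : 2 * ((τ : ℝ) + 1) / D < (τ : ℝ) + 1 - a := by
          rw [div_lt_iff₀ hDpos]
          linarith
        linarith
      obtain ⟨c, hc⟩ := logb_lower k ℓ τ hk hl D hD2
      have hlim : Tendsto (fun q : ℕ => ((τ : ℝ) + 1) - 2 * ((τ : ℝ) + 1) / D -
          c / Real.log q) atTop (𝓝 (((τ : ℝ) + 1) - 2 * ((τ : ℝ) + 1) / D - 0)) :=
        tendsto_const_nhds.sub (hlog.const_div_atTop c)
      rw [sub_zero] at hlim
      filter_upwards [hc, hlim.eventually (lt_mem_nhds hgap)] with q h1 h2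
      linarith
  · intro a ha
    have hlim : Tendsto (fun q : ℕ => (t : ℝ) + Real.log ((k : ℝ) + k * (k + 1)) / Real.log q)
        atTop (𝓝 ((t : ℝ) + 0)) :=
      tendsto_const_nhds.add (hlog.const_div_atTop _)
    rw [add_zero] at hlim
    filter_upwards [eventually_ge_atTop 2, hlim.eventually (gt_mem_nhds ha)] with q h1 h2
    exact (logb_upper k ℓ t hk hupper q h1).trans_lt h2

/-- For all fixed `k ≥ 1` and `ℓ ≥ 1`, the maximum rate `R(q, ℓ, k)` of sequential `q`-ary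
`k`-IPP codes of length `ℓ` converges as `q → ∞`, and the limit is
`⌈2 (ℓ - k + 1) / (k (k + 1))⌉ / ℓ`, where `⌈·⌉₊` is the ceiling in the natural numbers
(so the limit is `0` when `ℓ < k`). -/
theorem result (k ℓ : ℕ) (hk : 1 ≤ k) (_hℓ : 1 ≤ ℓ) :
    Tendsto (fun q : ℕ => rate q ℓ k) atTop
      (𝓝 ((⌈2 * ((ℓ : ℝ) - k + 1) / (k * (k + 1))⌉₊ : ℝ) / ℓ)) := by
  have hkpos : (0 : ℝ) < k := by exact_mod_cast hk
  have hkk : (0 : ℝ) < k * (k + 1) := by positivity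
  have hup : 2 * (ℓ + 1) ≤ 2 * k + ⌈2 * ((ℓ : ℝ) - k + 1) / (k * (k + 1))⌉₊ * (k * (k + 1)) := by
    have h1 := Nat.le_ceil (2 * ((ℓ : ℝ) - k + 1) / (k * (k + 1)))
    rw [div_le_iff₀ hkk] at h1
    have h2 : 2 * ((ℓ : ℝ) + 1) ≤
        2 * k + ⌈2 * ((ℓ : ℝ) - k + 1) / (k * (k + 1))⌉₊ * (k * (k + 1)) := by linarith
    exact_mod_cast h2
  have hlow : 1 ≤ ⌈2 * ((ℓ : ℝ) - k + 1) / (k * (k + 1))⌉₊ →
      (⌈2 * ((ℓ : ℝ) - k + 1) / (k * (k + 1))⌉₊ - 1) * (k * (k + 1)) + 2 * k ≤ 2 * ℓ := by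
    intro h0
    have hx : 0 < 2 * ((ℓ : ℝ) - k + 1) / (k * (k + 1)) := Nat.ceil_pos.mp h0
    have h1 := Nat.ceil_lt_add_one hx.le
    obtain ⟨τ, hτ⟩ : ∃ τ, ⌈2 * ((ℓ : ℝ) - k + 1) / (k * (k + 1))⌉₊ = τ + 1 :=
      ⟨⌈2 * ((ℓ : ℝ) - k + 1) / (k * (k + 1))⌉₊ - 1, by omega⟩
    rw [hτ] at h1 ⊢
    simp only [Nat.add_sub_cancel]
    push_cast at h1
    have h2 : (τ : ℝ) < 2 * ((ℓ : ℝ) - k + 1) / (k * (k + 1)) := by linarith
    rw [lt_div_iff₀ hkk] at h2
    have h3 : (τ : ℝ) * (k * (k + 1)) + 2 * k < 2 * ℓ + 2 := by linarith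
    have h4 : τ * (k * (k + 1)) + 2 * k < 2 * ℓ + 2 := by exact_mod_cast h3
    obtain ⟨m, hm⟩ := Nat.even_mul_succ_self k
    have h5 : τ * (k * (k + 1)) = 2 * (τ * m) := by rw [hm]; ring
    omega
  exact (tendsto_logb k ℓ _ hk hup hlow).div_const (ℓ : ℝ)

end Pool.Agent.Results.MP_96bab1_co.LargeAlphabetLimit
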