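import Pool.Agent.Lib.MP_96bab1_co.SmallAlphabet
import Pool.Agent.Lib.MP_96bab1_co.History
import Pool.Agent.Lib.MP_96bab1_co.Separating

/-!
For which `q` and `k` is the asymptotic rate of sequential `k`-IPP codes positive?
-/

namespace Pool.Agent.Results.MP_96bab1_co.PositivityThreshold

open Filter Topology Pool.Agent.Lib.MP_96bab1_co

/-- The limit is zero when `q ≤ k`. -/
lemma tendsto_zero {q k : ℕ} (hq : 2 ≤ q) (hqk : q ≤ k) :
    Tendsto (fun ℓ : ℕ => rate q ℓ k) atTop (𝓝 0) := by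
  have hlim : Tendsto (fun ℓ : ℕ => (1 : ℝ) / (ℓ : ℝ)) atTop (𝓝 0) :=
    tendsto_one_div_atTop_nhds_zero_nat
  refine squeeze_zero' (Eventually.of_forall fun ℓ => rate_nonneg q ℓ k) ?_ hlim
  filter_upwards [eventually_ge_atTop 1] with ℓ hℓ
  have hq1 : (1 : ℝ) < q := by exact_mod_cast (by omega : 1 < q)
  have hlq : 0 < Real.log q := Real.log_pos hq1
  have hℓ' : (0 : ℝ) < ℓ := by exact_mod_cast hℓ
  unfold rate
  rw [maxSize_eq_min (by omega) hqk]
  apply div_le_div_of_nonneg_right _ hℓ'.le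
  rw [Real.logb, div_le_one hlq]
  apply Real.log_le_log
  · exact_mod_cast (by omega : 0 < min q ℓ)
  · exact_mod_cast min_le_left q ℓ

/-- The rate is bounded below when `k < q`. -/
lemma liminf_pos {q k : ℕ} (hk : 1 ≤ k) (hkq : k < q) :
    0 < liminf (fun ℓ : ℕ => rate q ℓ k) atTop := by
  have hq1 : (1 : ℝ) < q := by exact_mod_cast (by omega : 1 < q)
  have hlq : 0 < Real.log q := Real.log_pos hq1
  set V := k * (k + 1) with hV
  have hVpos : 0 < V := by positivity
  have hVr : (0 : ℝ) < V := by exact_mod_cast hVpos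
  have hkr : (0 : ℝ) < k := by exact_mod_cast hk
  have hqV : 1 < q ^ V := Nat.one_lt_pow hVpos.ne' (by omega)
  set b : ℝ := (q : ℝ) ^ V with hb
  have hb1 : 1 < b := by rw [hb]; exact_mod_cast hqV
  set ρ : ℝ := b / (b - 1) with hρ
  have hρ1 : 1 < ρ := by
    rw [hρ, one_lt_div (by linarith)]
    linarith
  have hlρ : 0 < Real.log ρ := Real.log_pos hρ1
  -- the size of the codes
  have hcode : ∀ ℓ m : ℕ, 1 ≤ m → k * m ≤ ℓ → 4 ≤ ρ ^ ((m : ℝ) / V) →
      ρ ^ ((m : ℝ) / V) / 4 ≤ maxSize q ℓ k := by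
    intro ℓ m hm hℓ hx4
    set x : ℝ := ρ ^ ((m : ℝ) / V) with hx
    set n : ℕ := ⌊x / 2⌋₊ with hn
    have hnx : (n : ℝ) ≤ x / 2 := Nat.floor_le (by linarith)
    have hxn : x / 2 < n + 1 := Nat.lt_floor_add_one _
    have hxV : x ^ V = ρ ^ m := by
      rw [hx, ← Real.rpow_natCast, ← Real.rpow_mul (by linarith), div_mul_cancel₀ _ hVr.ne',
        Real.rpow_natCast]
    have hcount : (n + 1) ^ V * (q ^ V - 1) ^ m < (q ^ V) ^ m := by
      have h1 : ((n : ℝ) + 1) ^ V < ρ ^ m := by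
        rw [← hxV]
        apply pow_lt_pow_left₀ _ (by positivity) hVpos.ne'
        linarith
      have h2 : ((n : ℝ) + 1) ^ V * (b - 1) ^ m < b ^ m := by
        have h3 : (0 : ℝ) < (b - 1) ^ m := pow_pos (by linarith) m
        calc ((n : ℝ) + 1) ^ V * (b - 1) ^ m < ρ ^ m * (b - 1) ^ m :=
              mul_lt_mul_of_pos_right h1 h3
          _ = b ^ m := by
              rw [← mul_pow, hρ, div_mul_cancel₀ _ (by linarith : b - 1 ≠ 0)]
      have h3 : (((n + 1) ^ V * (q ^ V - 1) ^ m : ℕ) : ℝ) < (((q ^ V) ^ m : ℕ) : ℝ) := by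
        push_cast [Nat.cast_sub hqV.le]
        rw [← hb]
        exact h2
      exact_mod_cast h3
    obtain ⟨f, hf⟩ := exists_separating (q := q) (k := k) (n := n) (m := m) hkq hcount
    have hI := isSeqIPP_repeat (ℓ := ℓ) hm hℓ f hf
    have hinj := repeat_injective (ℓ := ℓ) hk hm hℓ f hf
    have h1 := le_maxSize _ hI
    rw [Finset.card_image_of_injective _ hinj, Finset.card_univ, Fintype.card_fin] at h1
    have h2 : (n : ℝ) ≤ maxSize q ℓ k := by exact_mod_cast h1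
    linarith
  -- lower bound on the rate
  have hrate : ∀ᶠ ℓ : ℕ in atTop, Real.log ρ / (k * V * Real.log q) -
      ((Real.log ρ / V + Real.log 4) / Real.log q) / ℓ ≤ rate q ℓ k := by
    have hlim : Tendsto (fun m : ℕ => ρ ^ ((m : ℝ) / V)) atTop atTop := by
      apply (tendsto_rpow_atTop_of_base_gt_one ρ hρ1).comp
      exact tendsto_natCast_atTop_atTop.atTop_div_const hVr
    have hdiv : Tendsto (fun ℓ : ℕ => ℓ / k) atTop atTop := Nat.tendsto_div_const_atTop (by omega)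
    filter_upwards [(hlim.comp hdiv).eventually_ge_atTop 4, hdiv.eventually_ge_atTop 1,
      eventually_ge_atTop 1] with ℓ h4 hm1 hℓ1
    simp only [Function.comp] at h4
    have hℓ' : (0 : ℝ) < ℓ := by exact_mod_cast hℓ1
    set m := ℓ / k with hm
    have hkm : k * m ≤ ℓ := Nat.mul_div_le ℓ k
    have hmr : (ℓ : ℝ) / k - 1 ≤ m := by
      have h1 := Nat.lt_div_mul_add (a := ℓ) (by omega : 0 < k)
      rw [← hm] at h1
      have h2 : (ℓ : ℝ) < m * k + k := by exact_mod_cast h1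
      rw [tsub_le_iff_right, div_le_iff₀ hkr]
      linarith
    have h1 := hcode ℓ m hm1 hkm h4
    have h2 : Real.log (ρ ^ ((m : ℝ) / V) / 4) ≤ Real.log (maxSize q ℓ k) :=
      Real.log_le_log (by linarith) h1
    rw [Real.log_div (by linarith) (by norm_num), Real.log_rpow (by linarith)] at h2
    have h3 : ((ℓ : ℝ) / k - 1) / V * Real.log ρ ≤ (m : ℝ) / V * Real.log ρ := by
      apply mul_le_mul_of_nonneg_right _ hlρ.le
      exact div_le_div_of_nonneg_right hmr hVr.le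
    have h4' : ((ℓ : ℝ) / k - 1) / V * Real.log ρ - Real.log 4 ≤ Real.log (maxSize q ℓ k) := by
      linarith
    unfold rate
    rw [Real.logb, le_div_iff₀ hℓ', le_div_iff₀ hlq]
    have h5 : (Real.log ρ / (k * V * Real.log q) -
        ((Real.log ρ / V + Real.log 4) / Real.log q) / ℓ) * ℓ * Real.log q =
        ((ℓ : ℝ) / k - 1) / V * Real.log ρ - Real.log 4 := by
      field_simp
      ring
    rw [h5]
    exact h4'
  have hlim : Tendsto (fun ℓ : ℕ => Real.log ρ / (k * V * Real.log q) -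
      ((Real.log ρ / V + Real.log 4) / Real.log q) / (ℓ : ℝ)) atTop
      (𝓝 (Real.log ρ / (k * V * Real.log q) - 0)) :=
    tendsto_const_nhds.sub (tendsto_natCast_atTop_atTop.const_div_atTop _)
  rw [sub_zero] at hlim
  have hfin : Real.log ρ / (k * V * Real.log q) ≤ liminf (fun ℓ : ℕ => rate q ℓ k) atTop := by
    rw [← hlim.liminf_eq]
    exact liminf_le_liminf hrate hlim.isBoundedUnder_ge (bddAbove_rate q k).isCoboundedUnder_ge
  have : 0 < Real.log ρ / (k * V * Real.log q) := by positivity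
  linarith

/-- For `q ≥ 2` and `k ≥ 1`: if `k < q` then `liminf_{ℓ → ∞} R(q, ℓ, k) > 0`; and if `q ≤ k`
then `N(q, ℓ, k) = min(q, ℓ)` for every `ℓ ≥ 1`, so that `R(q, ℓ, k) → 0` as `ℓ → ∞`. -/
theorem result (q k : ℕ) (hq : 2 ≤ q) (hk : 1 ≤ k) :
    (k < q → 0 < liminf (fun ℓ : ℕ => rate q ℓ k) atTop) ∧
    (q ≤ k → (∀ ℓ : ℕ, 1 ≤ ℓ → maxSize q ℓ k = min q ℓ) ∧
      Tendsto (fun ℓ : ℕ => rate q ℓ k) atTop (𝓝 0)) :=
  ⟨fun h => liminf_pos hk h,
    fun h => ⟨fun _ _ => maxSize_eq_min (by omega) h, tendsto_zero hq h⟩⟩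

end Pool.Agent.Results.MP_96bab1_co.PositivityThreshold
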