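import Pool.Agent.Lib.MP_96bab1_co.U.Hash
import Pool.Agent.Lib.MP_96bab1_co.U.Mac
import Pool.Agent.Lib.MP_96bab1_co.U.Cnt
import Pool.Agent.Lib.MP_96bab1_co.U.HashUp
import Pool.Agent.Lib.MP_96bab1_co.U.LimUp
import Pool.Agent.Lib.MP_96bab1_co.U.Up
import Pool.Agent.Lib.MP_96bab1_co.U.Sep
import Pool.Agent.Lib.MP_96bab1_co.U.GoodA
import Pool.Agent.Lib.MP_96bab1_co.U.GoodB
import Pool.Agent.Lib.MP_96bab1_co.U.Ex
import Pool.Agent.Lib.MP_96bab1_co.U.RR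
import Pool.Agent.Lib.MP_96bab1_co.U.Lin
import Pool.Agent.Lib.MP_96bab1_co.U.LinN
import Pool.Agent.Lib.MP_96bab1_co.U.RL
import Pool.Agent.Lib.MP_96bab1_co.U.Low
import Pool.Agent.Lib.MP_96bab1_co.U.One

/-!
Bounds for the asymptotic rate of sequential `k`-IPP codes, uniform in the alphabet and in `k`.
-/

namespace Pool.Agent.Results.MP_96bab1_co.UniformBounds

open Filter Pool.Agent.Lib.MP_96bab1_co Pool.Agent.Lib.MP_96bab1_co.U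

/-- Bounds for the lower limit and the upper limit (`ℓ → ∞`) of the maximum rate `R(q, ℓ, k)` of
sequential `q`-ary `k`-IPP codes of length `ℓ`.  For all `q > k ≥ 2`:
`exp(-7 (k²/q + ln k)) ≤ liminf R`, `limsup R ≤ exp(-(k²/q + ln k)/18)`.  For all `q, k ≥ 2`:
`(2/(k(k+1))) (1 - ln(3k²(k+1))/ln q) ≤ liminf R`, `limsup R ≤ 2/(k(k+1))` and
`limsup R ≤ exp(-(k-1)(k-2)/(2q))`.  For `k = 1`, `q ≥ 2`: `R(q, ℓ, 1) = 1` for all `ℓ ≥ 1`. -/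
theorem result :
    (∀ q k : ℕ, 2 ≤ k → k < q →
      Real.exp (-(7 * ((k : ℝ) ^ 2 / q + Real.log k))) ≤
        liminf (fun ℓ : ℕ => rate q ℓ k) atTop ∧
      limsup (fun ℓ : ℕ => rate q ℓ k) atTop ≤
        Real.exp (-(((k : ℝ) ^ 2 / q + Real.log k) / 18))) ∧
    (∀ q k : ℕ, 2 ≤ k → 2 ≤ q →
      2 / ((k : ℝ) * (k + 1)) * (1 - Real.log (3 * (k : ℝ) ^ 2 * (k + 1)) / Real.log q) ≤
        liminf (fun ℓ : ℕ => rate q ℓ k) atTop ∧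
      limsup (fun ℓ : ℕ => rate q ℓ k) atTop ≤ 2 / ((k : ℝ) * (k + 1)) ∧
      limsup (fun ℓ : ℕ => rate q ℓ k) atTop ≤
        Real.exp (-((((k : ℝ) - 1) * (k - 2)) / (2 * q)))) ∧
    (∀ q ℓ : ℕ, 2 ≤ q → 1 ≤ ℓ → rate q ℓ 1 = 1) := by
  have hLimUp : S_LimUp := pLimUp (pHashUp pHash pMac pCnt)
  have hRL : S_RL := pRL pLin pLinN
  exact ⟨fun q k hk hkq => ⟨pLow (pGoodA pSep) (pGoodB pSep) (pRR pEx) hRL q k hk hkq,
      pUp hLimUp pUp0 q k hk hkq⟩,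
    fun q k hk hq => ⟨hRL q k hk hq, pUp0 q k (by omega) hq, hLimUp q k hk hq⟩, pOne⟩

end Pool.Agent.Results.MP_96bab1_co.UniformBounds
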